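import Pool.Agent.U731.BA.B

set_option autoImplicit false
set_option linter.unusedSectionVars false

/-! Packing copies into small cubes; products with derivatives in a given set. -/

open Set Filter Topology Metric Function
open scoped Manifold ContDiff

namespace Pool.Agent.U731.BA

open Pool.Agent.Y522 Pool.Agent.U211.ISO Pool.Agent.U211.BL

variable {n : ℕ}

/-- centres of the small cubes -/
noncomputable def ctr {m : ℕ} (k : Fin n → Fin m) : E n :=
  WithLp.toLp 2 fun i => -1 + (2 * (k i : ℝ) + 1) / m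

theorem ctr_apply {m : ℕ} (k : Fin n → Fin m) (i : Fin n) :
    ctr k i = -1 + (2 * (k i : ℝ) + 1) / m := rfl

theorem disj {m : ℕ} (hm : 0 < m) {k k' : Fin n → Fin m} (h : k ≠ k') :
    Disjoint (Cube (ctr k) (1 / (m : ℝ))) (Cube (ctr k') (1 / (m : ℝ))) := by
  have hm' : (0 : ℝ) < m := by exact_mod_cast hm
  obtain ⟨i, hi⟩ := Function.ne_iff.1 h
  have h1 : ((k i : ℕ) : ℤ) - (k' i : ℕ) ≠ 0 := by
    intro h2
    apply hi
    apply Fin.ext
    omega
  have h2 : (1 : ℤ) ≤ |((k i : ℕ) : ℤ) - (k' i : ℕ)| := Int.one_le_abs h1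
  have h3 : (1 : ℝ) ≤ |((k i : ℕ) : ℝ) - (k' i : ℕ)| := by exact_mod_cast h2
  have e : ctr k i - ctr k' i = 2 / m * (((k i : ℕ) : ℝ) - (k' i : ℕ)) := by
    rw [ctr_apply, ctr_apply]
    field_simp
    ring
  have h4 : 2 / (m : ℝ) ≤ |ctr k i - ctr k' i| := by
    rw [e, abs_mul, abs_of_pos (by positivity)]
    have h5 : (0 : ℝ) < 2 / m := by positivity
    nlinarith
  rw [Set.disjoint_left]
  intro x hx hx'
  have a1 := hx i
  have a2 := hx' i
  have a3 : |ctr k i - ctr k' i| ≤ |x i - ctr k i| + |x i - ctr k' i| := by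
    have : ctr k i - ctr k' i = -(x i - ctr k i) + (x i - ctr k' i) := by ring
    rw [this]
    refine (abs_add_le _ _).trans ?_
    rw [abs_neg]
  have e3 : 2 / (m : ℝ) = 1 / m + 1 / m := by ring
  linarith

theorem cube_sub {m : ℕ} (hm : 0 < m) (k : Fin n → Fin m) :
    Cube (ctr k) (1 / (m : ℝ)) ⊆ Cube (0 : E n) 1 := by
  have hm' : (0 : ℝ) < m := by exact_mod_cast hm
  intro x hx i
  have h0 := hx i
  have h1 : (0 : ℝ) ≤ (k i : ℕ) := Nat.cast_nonneg _
  have h2 : ((k i : ℕ) : ℝ) + 1 ≤ m := by exact_mod_cast (k i).2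
  rw [ctr_apply, abs_lt] at h0
  have h3 : (1 : ℝ) / m ≤ (2 * ((k i : ℕ) : ℝ) + 1) / m := by gcongr; linarith
  have h4 : (2 * ((k i : ℕ) : ℝ) + 1) / m ≤ (2 * m - 1) / m := by gcongr; linarith
  have e : (2 * (m : ℝ) - 1) / m = 2 - 1 / m := by field_simp
  have e0 : x i - (0 : E n) i = x i := by simp
  rw [e0, abs_lt]
  constructor <;> linarith

theorem cj_good {F : Equiv.Perm (E n)} (cF : CD F) (h : Good (Cube 0 1) F) (a : E n) {l : ℝ}
    (hl : 0 < l) : Good (Cube a l) (cj F a l hl.ne') := by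
  have key : ∀ z, z ∉ Cube a l → l⁻¹ • (z - a) ∉ Cube (0 : E n) 1 := by
    intro z hz hz'
    apply hz
    intro i
    have h1 := hz' i
    have e : (l⁻¹ • (z - a)) i - (0 : E n) i = l⁻¹ * (z i - a i) := by simp
    rw [e, abs_mul, abs_of_pos (inv_pos.2 hl), inv_mul_lt_iff₀ hl, mul_one] at h1
    exact h1
  refine ⟨fun z hz => ?_, fun z hz => ?_⟩
  · rw [cj_apply, h.1 _ (key z hz), smul_smul, mul_inv_cancel₀ hl.ne', one_smul, add_sub_cancel]
  · rw [cj_fderiv cF, h.2 _ (key z hz)]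

theorem one_DL {L : ℝ} (hL : 0 ≤ L) : DL L (1 : Equiv.Perm (E n)) := by
  intro x y
  rw [fderiv_one, fderiv_one, sub_self, norm_zero]
  positivity

theorem one_good (U : Set (E n)) : Good U (1 : Equiv.Perm (E n)) :=
  ⟨fun _ _ => rfl, fun z _ => fderiv_one z⟩

theorem grid {m : ℕ} (hm : 0 < m) {L : ℝ} (hL : 0 ≤ L)
    (l : List (Equiv.Perm (E n) × (Fin n → Fin m))) (h : ∀ q ∈ l, Sm L q.1)
    (hnd : (l.map Prod.snd).Nodup) :
    ∃ Ψ : Equiv.Perm (E n), CD Ψ ∧ Iso ((l.map Prod.fst).prod) Ψ ∧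
      Good (⋃ q ∈ l, Cube (ctr q.2) (1 / (m : ℝ))) Ψ ∧ DL (m * L) Ψ ∧ DL (m * L) Ψ⁻¹ := by
  have hm' : (0 : ℝ) < m := by exact_mod_cast hm
  induction l with
  | nil =>
    refine ⟨1, CD.one, CD.one.refl, one_good _, one_DL (by positivity), ?_⟩
    rw [inv_one]
    exact one_DL (by positivity)
  | cons q l ih =>
    rw [List.map_cons, List.nodup_cons] at hnd
    obtain ⟨Ψ, h0, h1, h2, h3, h4⟩ := ih (fun q' hq' => h q' (List.mem_cons_of_mem _ hq')) hnd.2
    obtain ⟨g0, g1, g2, g3⟩ := h q List.mem_cons_self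
    have hr : (0 : ℝ) < 1 / m := by positivity
    set χ := cj q.1 (ctr q.2) (1 / (m : ℝ)) hr.ne' with hχ
    have c0 : CD χ := cj_CD g0 _ hr
    have c1 : Good (Cube (ctr q.2) (1 / (m : ℝ))) χ := cj_good g0 g1 _ hr
    have e : L / (1 / (m : ℝ)) = m * L := by field_simp
    have c2 : DL (m * L) χ := by
      have := cj_DL g0 g2 (ctr q.2) hr
      rwa [e] at this
    have c3 : DL (m * L) χ⁻¹ := by
      have := cj_DL g0.inv g3 (ctr q.2) hr
      rw [e] at this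
      rw [hχ, cj_inv]
      exact this
    have hd : Disjoint (Cube (ctr q.2) (1 / (m : ℝ)))
        (⋃ q' ∈ l, Cube (ctr q'.2) (1 / (m : ℝ))) := by
      rw [Set.disjoint_iUnion₂_right]
      intro q' hq'
      apply disj hm
      intro he
      exact hnd.1 (List.mem_map.2 ⟨q', hq', he.symm⟩)
    have hopen : IsOpen (⋃ q' ∈ l, Cube (ctr q'.2) (1 / (m : ℝ))) :=
      isOpen_biUnion fun _ _ => cube_open _ _
    refine ⟨χ * Ψ, c0.mul h0, ?_, ?_, mul_DL c0 h0 (cube_open _ _) hopen c1 h2 hd c2 h3, ?_⟩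
    · rw [List.map_cons, List.prod_cons]
      exact (iso_cj g0 (ctr q.2) hr).mul h1
    · have e : (⋃ q' ∈ q :: l, Cube (ctr q'.2) (1 / (m : ℝ)))
          = Cube (ctr q.2) (1 / (m : ℝ)) ∪
            ⋃ q' ∈ l, Cube (ctr q'.2) (1 / (m : ℝ)) := by
        ext z
        simp [List.mem_cons]
      rw [e]
      exact mul_good c0 h0 c1 h2
    · rw [mul_inv_rev]
      exact mul_DL h0.inv c0.inv hopen (cube_open _ _) (h2.inv h0) (c1.inv c0) hd.symm h4 c3

/-- product of at most `m ^ n` small maps -/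
theorem sm_prod (hn : 0 < n) {m : ℕ} {L : ℝ} (hL : 0 ≤ L) (l : List (Equiv.Perm (E n)))
    (hl : l.length ≤ m ^ n) (h : ∀ F ∈ l, Sm L F) :
    ∃ Ψ : Equiv.Perm (E n), Sm (m * L) Ψ ∧ Iso l.prod Ψ := by
  classical
  rcases Nat.eq_zero_or_pos m with hm | hm
  · subst hm
    have h0 : l.length = 0 := by
      have : 0 ^ n = 0 := zero_pow (by omega)
      omega
    rw [List.length_eq_zero_iff.1 h0]
    refine ⟨1, ⟨CD.one, one_good _, one_DL (by positivity), ?_⟩, CD.one.refl⟩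
    rw [inv_one]
    exact one_DL (by positivity)
  have hcard : Fintype.card (Fin l.length) ≤ Fintype.card (Fin n → Fin m) := by
    rw [Fintype.card_fin, Fintype.card_fun, Fintype.card_fin, Fintype.card_fin]
    exact hl
  obtain ⟨e⟩ := Function.Embedding.nonempty_of_card_le hcard
  set l' : List (Equiv.Perm (E n) × (Fin n → Fin m)) := List.ofFn fun i => (l.get i, e i) with hl'
  obtain ⟨Ψ, g0, g1, g2, g3, g4⟩ := grid hm hL l' (by
    intro q hq
    rw [hl', List.mem_ofFn] at hq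
    obtain ⟨i, rfl⟩ := hq
    exact h _ (List.get_mem l i)) (by
    rw [hl', List.map_ofFn]
    exact List.nodup_ofFn.2 e.injective)
  have e1 : l'.map Prod.fst = l := by
    rw [hl', List.map_ofFn]
    exact List.ofFn_get l
  rw [e1] at g1
  refine ⟨Ψ, ⟨g0, ⟨fun z hz => ?_, fun z hz => ?_⟩, g3, g4⟩, g1⟩
  all_goals
    have hz' : z ∉ ⋃ q ∈ l', Cube (ctr q.2) (1 / (m : ℝ)) := by
      intro hz'
      rw [Set.mem_iUnion₂] at hz'
      obtain ⟨q, _, hq⟩ := hz'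
      exact hz (cube_sub hm q.2 hq)
  · exact g2.1 z hz'
  · exact g2.2 z hz'

theorem Sm.mono {L L' : ℝ} (h : L ≤ L') {F : Equiv.Perm (E n)} (hF : Sm L F) : Sm L' F := by
  obtain ⟨a, b, c, d⟩ := hF
  exact ⟨a, b, fun x y => (c x y).trans (by gcongr), fun x y => (d x y).trans (by gcongr)⟩

/-- every compactly supported diffeomorphism is isotopic to a small one -/
theorem exists_sm {F : Equiv.Perm (E n)} (cF : CD F) :
    ∃ (L : ℝ) (G : Equiv.Perm (E n)), 0 ≤ L ∧ Sm L G ∧ Iso F G := by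
  obtain ⟨r, hr⟩ := cF.supp
  obtain ⟨L₁, h1, d1⟩ := exists_DL cF
  obtain ⟨L₂, h2, d2⟩ := exists_DL cF.inv
  obtain ⟨s, hs, hsr⟩ : ∃ s : ℝ, 0 < s ∧ r < s := ⟨max r 0 + 1, by positivity, by
    have := le_max_left r 0
    linarith⟩
  have hl : 0 < 1 / s := by positivity
  have d1' := cj_DL cF d1 0 hl
  have d2' := cj_DL cF.inv d2 0 hl
  rw [← cj_inv] at d2'
  refine ⟨max (L₁ / (1 / s)) (L₂ / (1 / s)), cj F 0 (1 / s) hl.ne', by positivity,
    ⟨cj_CD cF 0 hl, good_cube (cj_CD cF 0 hl) one_pos fun x hx => ?_, fun x y => ?_, fun x y => ?_⟩,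
    iso_cj cF 0 hl⟩
  · obtain ⟨i, hi⟩ := hx
    apply cj_supp hr 0 hl
    have h3 : |x i| ≤ ‖x‖ := by
      have := PiLp.norm_apply_le x i
      rwa [Real.norm_eq_abs] at this
    have h4 : 1 < |x i| := by simpa using hi
    rw [sub_zero]
    have h5 : 1 / s * r ≤ 1 := by
      rw [one_div, inv_mul_le_iff₀ hs, mul_one]
      exact hsr.le
    linarith
  · refine (d1' x y).trans ?_
    gcongr
    exact le_max_left _ _
  · refine (d2' x y).trans ?_
    gcongr
    exact le_max_right _ _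

/-- products with derivatives in `P` -/
theorem mul_rep (hn : 0 < n) {P : Set (E n →L[ℝ] E n)} {F G : Equiv.Perm (E n)} (cF : CD F)
    (cG : CD G) (hF : ∀ x, fderiv ℝ F x ∈ P) (hG : ∀ x, fderiv ℝ G x ∈ P) :
    ∃ H, CD H ∧ (∀ x, fderiv ℝ H x ∈ P) ∧ Iso (F * G) H := by
  obtain ⟨r, hr⟩ := cF.supp
  obtain ⟨s, hs⟩ := cG.supp
  let i : Fin n := ⟨0, hn⟩
  let a : E n := EuclideanSpace.single i (|r| + |s| + 2)
  have ha : ‖a‖ = |r| + |s| + 2 := by
    rw [EuclideanSpace.norm_single, Real.norm_eq_abs, abs_of_pos (by positivity)]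
  have cG' := cj_CD cG a one_pos
  have gF : Good (ball 0 (r + 1)) F := good_of_supp fun x hx => hr x (by rwa [sub_zero] at hx)
  have gG : Good (ball a (s + 1)) (cj G a 1 one_pos.ne') := good_of_supp fun x hx =>
    cj_supp hs a one_pos x (by rwa [one_mul])
  have hd : Disjoint (ball (0 : E n) (r + 1)) (ball a (s + 1)) := by
    apply ball_disjoint_ball
    rw [dist_zero_left, ha]
    have := le_abs_self r
    have := le_abs_self s
    linarith
  refine ⟨F * cj G a 1 one_pos.ne', cF.mul cG', fun x => ?_, (cF.refl).mul (iso_cj cG a one_pos)⟩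
  by_cases hx : x ∈ ball (0 : E n) (r + 1)
  · rw [mul_fd_left cF cG' gG fun h => Set.disjoint_left.1 hd hx h]
    exact hF x
  · rw [mul_fd_right cF cG' gF gG hd hx, cj_fderiv cG]
    exact hG _

/-- bi-Lipschitz linear maps -/
def BL (n : ℕ) (L : ℝ) : Set (E n →L[ℝ] E n) :=
  {T | ∀ w, ‖w‖ ≤ L * ‖T w‖ ∧ ‖T w‖ ≤ L * ‖w‖}

theorem inv_BL {F : Equiv.Perm (E n)} (cF : CD F) {L : ℝ} (h : ∀ x, fderiv ℝ F x ∈ BL n L) (x : E n) :
    fderiv ℝ (F⁻¹ : Equiv.Perm (E n)) x ∈ BL n L := by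
  obtain ⟨y, rfl⟩ : ∃ y, F y = x := ⟨F.symm x, F.apply_symm_apply x⟩
  intro w
  have h1 := h y (fderiv ℝ (F⁻¹ : Equiv.Perm (E n)) (F y) w)
  rw [fderiv_inv' cF y w] at h1
  exact ⟨h1.2, h1.1⟩

theorem exists_bound {F : Equiv.Perm (E n)} (cF : CD F) : ∃ M : ℝ, 1 ≤ M ∧
    ∀ x, ‖fderiv ℝ F x‖ ≤ M := by
  obtain ⟨r, hr⟩ := cF.supp
  have gF : Good (ball 0 (r + 1)) F := good_of_supp fun x hx => hr x (by rwa [sub_zero] at hx)
  obtain ⟨C, hC⟩ := (isCompact_closedBall (0 : E n) (r + 1)).exists_bound_of_continuousOn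
    cF.cont.continuousOn
  refine ⟨max C 1, le_max_right _ _, fun x => ?_⟩
  by_cases hx : x ∈ ball (0 : E n) (r + 1)
  · exact (hC x (ball_subset_closedBall hx)).trans (le_max_left _ _)
  · rw [gF.2 x hx]
    exact ContinuousLinearMap.norm_id_le.trans (le_max_right _ _)

theorem exists_BL {F : Equiv.Perm (E n)} (cF : CD F) : ∃ L : ℝ, 1 ≤ L ∧
    ∀ x, fderiv ℝ F x ∈ BL n L := by
  obtain ⟨M, hM, h1⟩ := exists_bound cF
  obtain ⟨N, hN, h2⟩ := exists_bound cF.inv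
  refine ⟨max M N, le_max_of_le_left hM, fun x w => ⟨?_, ?_⟩⟩
  · have e := fderiv_inv cF x w
    calc ‖w‖ = ‖fderiv ℝ (F⁻¹ : Equiv.Perm (E n)) (F x) (fderiv ℝ F x w)‖ := by rw [e]
      _ ≤ ‖fderiv ℝ (F⁻¹ : Equiv.Perm (E n)) (F x)‖ * ‖fderiv ℝ F x w‖ :=
        ContinuousLinearMap.le_opNorm _ _
      _ ≤ max M N * ‖fderiv ℝ F x w‖ := by
        gcongr
        exact (h2 _).trans (le_max_right _ _)
  · refine ((fderiv ℝ F x).le_opNorm w).trans ?_
    gcongr
    exact (h1 x).trans (le_max_left _ _)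

theorem BL_mono {L L' : ℝ} (h : L ≤ L') : BL n L ⊆ BL n L' := fun T hT w =>
  ⟨(hT w).1.trans (by gcongr), (hT w).2.trans (by gcongr)⟩

end Pool.Agent.U731.BA
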