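import Mathlib
import Pool.Agent.U211.ISO.Glob

set_option autoImplicit false
set_option linter.unusedSectionVars false

/-! Compactly supported diffeomorphisms of `ℝⁿ` and their isotopies. -/

open Set Filter Topology Metric Function
open scoped Manifold ContDiff

namespace Pool.Agent.U731.BA

open Pool.Agent.Y522 Pool.Agent.U211.ISO Pool.Agent.U211.BL

variable {n : ℕ}

/-- a diffeomorphism of `ℝⁿ` which is the identity off a ball -/
structure CD (F : Equiv.Perm (E n)) : Prop where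
  smooth : ContDiff ℝ ∞ F
  smooth_symm : ContDiff ℝ ∞ F.symm
  supp : ∃ r, ∀ x, r ≤ ‖x‖ → F x = x

theorem CD.one : CD (1 : Equiv.Perm (E n)) := ⟨contDiff_id, contDiff_id, 0, fun _ _ => rfl⟩

theorem CD.mul {F G : Equiv.Perm (E n)} (hF : CD F) (hG : CD G) : CD (F * G) := by
  obtain ⟨r, hr⟩ := hF.supp
  obtain ⟨s, hs⟩ := hG.supp
  refine ⟨hF.smooth.comp hG.smooth, hG.smooth_symm.comp hF.smooth_symm, max r s, fun x hx => ?_⟩
  rw [Equiv.Perm.mul_apply, hs x ((le_max_right _ _).trans hx), hr x ((le_max_left _ _).trans hx)]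

theorem CD.inv {F : Equiv.Perm (E n)} (hF : CD F) : CD F⁻¹ := by
  obtain ⟨r, hr⟩ := hF.supp
  refine ⟨hF.smooth_symm, hF.smooth, r, fun x hx => ?_⟩
  rw [Equiv.Perm.inv_eq_iff_eq, hr x hx]

theorem CD.hasFD {F : Equiv.Perm (E n)} (hF : CD F) (x : E n) :
    HasFDerivAt F (fderiv ℝ F x) x := (hF.smooth.differentiable (by simp) x).hasFDerivAt

theorem fderiv_mul {F G : Equiv.Perm (E n)} (hF : CD F) (hG : CD G) (x : E n) :
    fderiv ℝ (F * G : Equiv.Perm (E n)) x = (fderiv ℝ F (G x)).comp (fderiv ℝ G x) :=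
  ((hF.hasFD (G x)).comp x (hG.hasFD x)).fderiv

theorem fderiv_one (x : E n) :
    fderiv ℝ (1 : Equiv.Perm (E n)) x = ContinuousLinearMap.id ℝ (E n) := (hasFDerivAt_id x).fderiv

theorem fderiv_inv {F : Equiv.Perm (E n)} (hF : CD F) (x v : E n) :
    fderiv ℝ (F⁻¹ : Equiv.Perm (E n)) (F x) (fderiv ℝ F x v) = v := by
  have h := fderiv_mul hF.inv hF x
  rw [inv_mul_cancel, fderiv_one] at h
  exact (congrArg (fun T : E n →L[ℝ] E n => T v) h).symm

theorem fderiv_inv' {F : Equiv.Perm (E n)} (hF : CD F) (x v : E n) :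
    fderiv ℝ F x (fderiv ℝ (F⁻¹ : Equiv.Perm (E n)) (F x) v) = v := by
  have h := fderiv_inv hF.inv (F x) v
  rw [inv_inv] at h
  have e : (F⁻¹ : Equiv.Perm (E n)) (F x) = x := F.symm_apply_apply x
  rwa [e] at h

theorem CD.ld {F : Equiv.Perm (E n)} (hF : CD F) (x : E n) : LD n (fun x => F x) x := by
  refine LD_of_pos (Eventually.of_forall fun y => hF.smooth.contDiffAt) fun w hw h0 => ?_
  have h1 := fderiv_inv hF x w
  rw [show fderiv ℝ F x w = 0 from h0, map_zero] at h1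
  rw [← h1, norm_zero] at hw
  exact zero_ne_one hw

/-- smooth isotopies through diffeomorphisms which are the identity off one ball -/
def Iso (F G : Equiv.Perm (E n)) : Prop :=
  ∃ (K : ℝ × E n → E n) (r : ℝ), ContDiff ℝ ∞ K ∧ (∀ x, K (0, x) = F x) ∧ (∀ x, K (1, x) = G x) ∧
    (∀ t x, r ≤ ‖x‖ → K (t, x) = x) ∧
    ∀ t, Bijective (fun x => K (t, x)) ∧ ∀ x, LD n (fun x => K (t, x)) x

theorem CD.refl {F : Equiv.Perm (E n)} (hF : CD F) : Iso F F := by
  obtain ⟨r, hr⟩ := hF.supp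
  exact ⟨fun q => F q.2, r, hF.smooth.comp contDiff_snd, fun _ => rfl, fun _ => rfl,
    fun t x hx => hr x hx, fun t => ⟨F.bijective, hF.ld⟩⟩

theorem Iso.symm {F G : Equiv.Perm (E n)} (h : Iso F G) : Iso G F := by
  obtain ⟨K, r, h1, h2, h3, h4, h5⟩ := h
  refine ⟨fun q => K (1 - q.1, q.2), r, ?_, fun x => ?_, fun x => ?_, fun t x hx => h4 _ _ hx,
    fun t => h5 (1 - t)⟩
  · exact h1.comp ((contDiff_const.sub contDiff_fst).prodMk contDiff_snd)
  · simpa using h3 x
  · simpa using h2 x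

theorem Iso.mul {F G F' G' : Equiv.Perm (E n)} (h : Iso F F') (h' : Iso G G') :
    Iso (F * G) (F' * G') := by
  obtain ⟨K, r, h1, h2, h3, h4, h5⟩ := h
  obtain ⟨L, s, l1, l2, l3, l4, l5⟩ := h'
  refine ⟨fun q => K (q.1, L q), max r s, h1.comp (contDiff_fst.prodMk l1), fun x => ?_,
    fun x => ?_, fun t x hx => ?_, fun t => ⟨(h5 t).1.comp (l5 t).1, fun x => ?_⟩⟩
  · change K (0, L (0, x)) = F (G x)
    rw [l2, h2]
  · change K (1, L (1, x)) = F' (G' x)
    rw [l3, h3]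
  · change K (t, L (t, x)) = x
    rw [l4 t x ((le_max_right _ _).trans hx), h4 t x ((le_max_left _ _).trans hx)]
  · exact LD.comp_fun (g := fun y => K (t, y)) (f := fun y => L (t, y)) ((h5 t).2 _) ((l5 t).2 x)

theorem Iso.trans {F G H : Equiv.Perm (E n)} (hG : CD G) (h : Iso F G) (h' : Iso G H) :
    Iso F H := by
  have h1 := (h'.mul hG.inv.refl).mul h
  have e1 : G * G⁻¹ * F = F := by group
  have e2 : H * G⁻¹ * G = H := by group
  rwa [e1, e2] at h1

/-- `x ↦ a + l x` -/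
noncomputable def hm (a : E n) (l : ℝ) (hl : l ≠ 0) : Equiv.Perm (E n) where
  toFun x := a + l • x
  invFun y := l⁻¹ • (y - a)
  left_inv x := by simp [smul_smul, inv_mul_cancel₀ hl]
  right_inv y := by simp [smul_smul, mul_inv_cancel₀ hl]

/-- the copy of `F` -/
noncomputable def cj (F : Equiv.Perm (E n)) (a : E n) (l : ℝ) (hl : l ≠ 0) : Equiv.Perm (E n) :=
  hm a l hl * F * (hm a l hl)⁻¹

theorem cj_apply (F : Equiv.Perm (E n)) (a : E n) {l : ℝ} (hl : l ≠ 0) (y : E n) :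
    cj F a l hl y = a + l • F (l⁻¹ • (y - a)) := rfl

theorem cj_inv (F : Equiv.Perm (E n)) (a : E n) {l : ℝ} (hl : l ≠ 0) :
    (cj F a l hl)⁻¹ = cj F⁻¹ a l hl := by
  unfold cj
  group

theorem cj_supp {F : Equiv.Perm (E n)} {r : ℝ} (h : ∀ x, r ≤ ‖x‖ → F x = x) (a : E n) {l : ℝ}
    (hl : 0 < l) (y : E n) (hy : l * r ≤ ‖y - a‖) : cj F a l hl.ne' y = y := by
  rw [cj_apply, h, smul_smul, mul_inv_cancel₀ hl.ne', one_smul, add_sub_cancel]
  rw [norm_smul, norm_inv, Real.norm_eq_abs, abs_of_pos hl, le_inv_mul_iff₀ hl]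
  exact hy

theorem cj_CD {F : Equiv.Perm (E n)} (hF : CD F) (a : E n) {l : ℝ} (hl : 0 < l) :
    CD (cj F a l hl.ne') := by
  obtain ⟨r, hr⟩ := hF.supp
  have key : ∀ G : E n → E n, ContDiff ℝ ∞ G →
      ContDiff ℝ ∞ (fun y => a + l • G (l⁻¹ • (y - a))) := fun G hG =>
    contDiff_const.add ((hG.comp ((contDiff_id.sub contDiff_const).const_smul l⁻¹)).const_smul l)
  refine ⟨key _ hF.smooth, ?_, ‖a‖ + l * r, fun x hx => ?_⟩
  · have e : ((cj F a l hl.ne').symm : E n → E n) = fun y => a + l • F.symm (l⁻¹ • (y - a)) := by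
      have := cj_inv F a hl.ne'
      funext y
      have h2 := congrArg (fun T : Equiv.Perm (E n) => T y) this
      exact h2
    rw [e]
    exact key _ hF.smooth_symm
  · refine cj_supp hr a hl x ?_
    have := norm_sub_norm_le x a
    linarith

theorem cj_fderiv {F : Equiv.Perm (E n)} (hF : CD F) (a : E n) {l : ℝ} (hl : l ≠ 0) (y : E n) :
    fderiv ℝ (cj F a l hl) y = fderiv ℝ F (l⁻¹ • (y - a)) := by
  have h1 : HasFDerivAt (fun y : E n => l⁻¹ • (y - a)) (l⁻¹ • ContinuousLinearMap.id ℝ (E n)) y :=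
    ((hasFDerivAt_id y).sub_const a).const_smul l⁻¹
  have h2 := (((hF.hasFD (l⁻¹ • (y - a))).comp y h1).const_smul l).const_add a
  have e : (cj F a l hl : E n → E n) = fun y => a + (l • (F ∘ fun y : E n => l⁻¹ • (y - a))) y :=
    rfl
  have h3 : fderiv ℝ (cj F a l hl) y = l • (fderiv ℝ F (l⁻¹ • (y - a))).comp
      (l⁻¹ • ContinuousLinearMap.id ℝ (E n)) := by
    rw [e]
    exact h2.fderiv
  rw [h3]
  ext v
  simp [smul_smul, mul_inv_cancel₀ hl]

/-- the copy is isotopic to `F` -/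
theorem iso_cj {F : Equiv.Perm (E n)} (hF : CD F) (a : E n) {l : ℝ} (hl : 0 < l) :
    Iso F (cj F a l hl.ne') := by
  obtain ⟨r, hr⟩ := hF.supp
  let σ : ℝ → ℝ := Real.smoothTransition
  have hσ : ContDiff ℝ ∞ σ := Real.smoothTransition.contDiff
  let m : ℝ → ℝ := fun t => Real.exp (σ t * Real.log l)
  have hm : ContDiff ℝ ∞ m := (hσ.mul contDiff_const).exp
  have hmp : ∀ t, 0 < m t := fun t => Real.exp_pos _
  have hmi : ContDiff ℝ ∞ (fun t => (m t)⁻¹) := hm.inv fun t => (hmp t).ne'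
  have h0 : σ 0 = 0 := Real.smoothTransition.zero
  have h1 : σ 1 = 1 := Real.smoothTransition.one
  have hs0 : ∀ t, 0 ≤ σ t := fun t => Real.smoothTransition.nonneg t
  have hs1 : ∀ t, σ t ≤ 1 := fun t => Real.smoothTransition.le_one t
  have hml : ∀ t, m t ≤ max 1 l := by
    intro t
    change Real.exp (σ t * Real.log l) ≤ _
    rcases le_total 1 l with h | h
    · have h2 : σ t * Real.log l ≤ Real.log l := by
        have := Real.log_nonneg h
        nlinarith [hs1 t]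
      calc Real.exp (σ t * Real.log l) ≤ Real.exp (Real.log l) := Real.exp_le_exp.2 h2
        _ = l := Real.exp_log hl
        _ ≤ _ := le_max_right _ _
    · have h2 : σ t * Real.log l ≤ 0 := by
        have := Real.log_nonpos hl.le h
        nlinarith [hs0 t]
      calc Real.exp (σ t * Real.log l) ≤ Real.exp 0 := Real.exp_le_exp.2 h2
        _ = 1 := Real.exp_zero
        _ ≤ _ := le_max_left _ _
  refine ⟨fun q => σ q.1 • a + m q.1 • F ((m q.1)⁻¹ • (q.2 - σ q.1 • a)),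
    ‖a‖ + max 1 l * max r 0, ?_, fun x => ?_, fun x => ?_, fun t x hx => ?_, fun t => ?_⟩
  · have s1 : ContDiff ℝ ∞ (fun q : ℝ × E n => σ q.1 • a) :=
      (hσ.comp contDiff_fst).smul contDiff_const
    have s2 : ContDiff ℝ ∞ (fun q : ℝ × E n => m q.1) := hm.comp contDiff_fst
    have s3 : ContDiff ℝ ∞ (fun q : ℝ × E n => (m q.1)⁻¹) := hmi.comp contDiff_fst
    exact s1.add (s2.smul (hF.smooth.comp (s3.smul (contDiff_snd.sub s1))))
  · change σ 0 • a + Real.exp (σ 0 * Real.log l) • F ((Real.exp (σ 0 * Real.log l))⁻¹ •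
      (x - σ 0 • a)) = F x
    rw [h0]
    simp
  · change σ 1 • a + Real.exp (σ 1 * Real.log l) • F ((Real.exp (σ 1 * Real.log l))⁻¹ •
      (x - σ 1 • a)) = a + l • F (l⁻¹ • (x - a))
    rw [h1, one_mul, Real.exp_log hl, one_smul]
  · have e := cj_supp hr (σ t • a) (hmp t) x (by
      have e1 := norm_sub_norm_le x (σ t • a)
      have e2 : ‖σ t • a‖ ≤ ‖a‖ := by
        rw [norm_smul, Real.norm_eq_abs, abs_of_nonneg (hs0 t)]
        have := norm_nonneg a
        nlinarith [hs1 t]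
      have e3 : m t * r ≤ max 1 l * max r 0 := by
        calc m t * r ≤ m t * max r 0 :=
              mul_le_mul_of_nonneg_left (le_max_left _ _) (hmp t).le
          _ ≤ _ := mul_le_mul_of_nonneg_right (hml t) (le_max_right _ _)
      linarith)
    exact e
  · have hc := cj_CD hF (σ t • a) (hmp t)
    exact ⟨(cj F (σ t • a) (m t) (hmp t).ne').bijective, hc.ld⟩

/-- straight isotopy -/
theorem iso_of_close {F G : Equiv.Perm (E n)} (hF : CD F) (hG : CD G)
    (h : ∀ x v, v ≠ 0 → ‖fderiv ℝ F x v - fderiv ℝ G x v‖ < ‖fderiv ℝ G x v‖) : Iso G F := by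
  obtain ⟨r, hr⟩ := hF.supp
  obtain ⟨s, hs⟩ := hG.supp
  let σ : ℝ → ℝ := Real.smoothTransition
  have hσ : ContDiff ℝ ∞ σ := Real.smoothTransition.contDiff
  have h0 : σ 0 = 0 := Real.smoothTransition.zero
  have h1 : σ 1 = 1 := Real.smoothTransition.one
  have hs0 : ∀ t, 0 ≤ σ t := fun t => Real.smoothTransition.nonneg t
  have hs1 : ∀ t, σ t ≤ 1 := fun t => Real.smoothTransition.le_one t
  have hoff : ∀ t x, max r s ≤ ‖x‖ → G x + σ t • (F x - G x) = x := by
    intro t x hx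
    rw [hr x ((le_max_left _ _).trans hx), hs x ((le_max_right _ _).trans hx), sub_self,
      smul_zero, add_zero]
  have hld : ∀ t x, LD n (fun x => G x + σ t • (F x - G x)) x := by
    intro t x
    have hsm : ContDiff ℝ ∞ (fun x => G x + σ t • (F x - G x)) :=
      hG.smooth.add ((hF.smooth.sub hG.smooth).const_smul (σ t))
    refine LD_of_pos (Eventually.of_forall fun y => hsm.contDiffAt) fun w hw hz => ?_
    have hd : HasFDerivAt (fun x => G x + σ t • (F x - G x))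
        (fderiv ℝ G x + σ t • (fderiv ℝ F x - fderiv ℝ G x)) x :=
      (hG.hasFD x).add (((hF.hasFD x).sub (hG.hasFD x)).const_smul (σ t))
    rw [hd.fderiv] at hz
    have hz' : fderiv ℝ G x w + σ t • (fderiv ℝ F x w - fderiv ℝ G x w) = 0 := hz
    have hw0 : w ≠ 0 := by
      rintro rfl
      rw [norm_zero] at hw
      exact zero_ne_one hw
    have h2 := h x w hw0
    have h3 : fderiv ℝ G x w = -(σ t • (fderiv ℝ F x w - fderiv ℝ G x w)) :=
      eq_neg_of_add_eq_zero_left hz'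
    have h4 : ‖fderiv ℝ G x w‖ = σ t * ‖fderiv ℝ F x w - fderiv ℝ G x w‖ := by
      conv_lhs => rw [h3]
      rw [norm_neg, norm_smul, Real.norm_eq_abs, abs_of_nonneg (hs0 t)]
    have h5 := hs1 t
    have h6 := norm_nonneg (fderiv ℝ F x w - fderiv ℝ G x w)
    nlinarith
  refine ⟨fun q => G q.2 + σ q.1 • (F q.2 - G q.2), max r s, ?_, fun x => ?_, fun x => ?_,
    fun t x hx => hoff t x hx, fun t => ⟨?_, hld t⟩⟩
  · exact (hG.smooth.comp contDiff_snd).add ((hσ.comp contDiff_fst).smul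
      ((hF.smooth.comp contDiff_snd).sub (hG.smooth.comp contDiff_snd)))
  · change G x + σ 0 • (F x - G x) = G x
    rw [h0, zero_smul, add_zero]
  · change G x + σ 1 • (F x - G x) = F x
    rw [h1, one_smul, add_sub_cancel]
  · have hl : IsLocalDiffeomorph (𝓡 n) (𝓡 n) ∞ (fun x => G x + σ t • (F x - G x)) := hld t
    exact bij_of_id_off hl.isLocalHomeomorph (hoff t)

/-- the bounded distortion part, from the library -/
theorem iso_of_bilip {F : Equiv.Perm (E n)} (hF : CD F) {L : ℝ} (hL : 1 ≤ L)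
    (hLn : (L ^ 4 - 1) * Real.sqrt n < L ^ 4 + 1)
    (h : ∀ x w, ‖w‖ ≤ L * ‖fderiv ℝ F x w‖ ∧ ‖fderiv ℝ F x w‖ ≤ L * ‖w‖) : Iso 1 F := by
  obtain ⟨R, hR⟩ := hF.supp
  have hL0 : 0 < L := by linarith
  have hd := dist_of_deriv hF.smooth hR (a := L⁻¹) (b := L) (inv_pos.2 hL0) hL0.le fun x w =>
    ⟨by rw [inv_mul_le_iff₀ hL0]; exact (h x w).1, (h x w).2⟩
  obtain ⟨C, hC⟩ := exists_move hF.smooth.continuous hR
  have hsq : 0 ≤ Real.sqrt n := Real.sqrt_nonneg _
  obtain ⟨k, k1, k2, k3, k4, k5⟩ := exists_path (ρ := L ^ 2) (δ := 1 / (Real.sqrt n + 1))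
    (r := (max C 1) * (Real.sqrt n + 1)) (R := R) (F := F) (by nlinarith)
    (by rw [← pow_mul]; exact hLn) (by
      rw [div_mul_eq_mul_div, one_mul, div_lt_one (by linarith)]
      linarith) (by
      have : (1 : ℝ) ≤ max C 1 := le_max_right _ _
      positivity) hF.smooth hR (fun x => by
      have e : 1 / (Real.sqrt n + 1) * ((max C 1) * (Real.sqrt n + 1)) = max C 1 := by
        field_simp
      rw [e]
      exact (hC x).trans (le_max_left _ _)) (fun x => ⟨L⁻¹, inv_pos.2 hL0, fun p q _ _ => by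
      refine ⟨(hd p q).1, (hd p q).2.trans (le_of_eq ?_)⟩
      field_simp⟩)
  exact ⟨k, _, k1, k2, k3, k4, k5⟩

end Pool.Agent.U731.BA
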