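import Pool.Agent.U731.BA.A

set_option autoImplicit false
set_option linter.unusedSectionVars false

/-! Disjoint supports, packing, finitely many classes. -/

open Set Filter Topology Metric Function
open scoped Manifold ContDiff

namespace Pool.Agent.U731.BA

open Pool.Agent.Y522 Pool.Agent.U211.ISO Pool.Agent.U211.BL

variable {n : ℕ}

/-- the identity off `U`, with derivative the identity off `U` -/
def Good (U : Set (E n)) (F : Equiv.Perm (E n)) : Prop :=
  (∀ z, z ∉ U → F z = z) ∧ ∀ z, z ∉ U → fderiv ℝ F z = ContinuousLinearMap.id ℝ (E n)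

/-- the derivative is Lipschitz with constant `L` -/
def DL (L : ℝ) (F : Equiv.Perm (E n)) : Prop :=
  ∀ x y, ‖fderiv ℝ F x - fderiv ℝ F y‖ ≤ L * ‖x - y‖

theorem CD.cont {F : Equiv.Perm (E n)} (hF : CD F) : Continuous (fderiv ℝ F) :=
  hF.smooth.continuous_fderiv (by simp)

theorem fderiv_of_eventually {F : Equiv.Perm (E n)} {z : E n} (h : ∀ᶠ y in 𝓝 z, F y = y) :
    fderiv ℝ F z = ContinuousLinearMap.id ℝ (E n) := by
  have h1 : (F : E n → E n) =ᶠ[𝓝 z] id := h
  rw [h1.fderiv_eq, fderiv_id]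

theorem good_of_supp {F : Equiv.Perm (E n)} {a : E n} {r : ℝ}
    (h : ∀ x, r ≤ ‖x - a‖ → F x = x) : Good (ball a (r + 1)) F := by
  have key : ∀ z, z ∉ ball a (r + 1) → r < ‖z - a‖ := by
    intro z hz
    rw [mem_ball_iff_norm, not_lt] at hz
    linarith
  refine ⟨fun z hz => h z (key z hz).le, fun z hz => fderiv_of_eventually ?_⟩
  have hopen : IsOpen {y : E n | r < ‖y - a‖} :=
    isOpen_lt continuous_const (continuous_id.sub continuous_const).norm
  filter_upwards [hopen.mem_nhds (key z hz)] with y hy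
  exact h y (le_of_lt hy)

/-- open cubes -/
def Cube (a : E n) (r : ℝ) : Set (E n) := {x | ∀ i, |x i - a i| < r}

theorem cube_open (a : E n) (r : ℝ) : IsOpen (Cube a r) := by
  unfold Cube
  rw [setOf_forall]
  exact isOpen_iInter_of_finite fun i => isOpen_lt (by fun_prop) continuous_const

theorem good_cube {F : Equiv.Perm (E n)} (hF : CD F) {a : E n} {r : ℝ} (hr : 0 < r)
    (h : ∀ x, (∃ i, r < |x i - a i|) → F x = x) : Good (Cube a r) F := by
  have hcl : ∀ z, z ∉ Cube a r → z ∈ closure {x : E n | ∃ i, r < |x i - a i|} := by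
    intro z hz
    unfold Cube at hz
    rw [mem_setOf_eq, not_forall] at hz
    obtain ⟨i, hi⟩ := hz
    rw [not_lt] at hi
    have hlim : Tendsto (fun s : ℝ => a + (1 + s) • (z - a)) (𝓝[>] 0) (𝓝 z) := by
      have hc : Continuous (fun s : ℝ => a + (1 + s) • (z - a)) := by fun_prop
      have h1 := hc.tendsto 0
      simp only [add_zero, one_smul, add_sub_cancel] at h1
      exact h1.mono_left nhdsWithin_le_nhds
    refine mem_closure_of_tendsto hlim ?_
    filter_upwards [self_mem_nhdsWithin] with s hs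
    refine ⟨i, ?_⟩
    have hs' : (0 : ℝ) < s := hs
    have e : (a + (1 + s) • (z - a)) i - a i = (1 + s) * (z i - a i) := by
      simp
    rw [e, abs_mul, abs_of_pos (by linarith)]
    nlinarith
  have hop : IsOpen {x : E n | ∃ i, r < |x i - a i|} := by
    rw [setOf_exists]
    exact isOpen_iUnion fun i => isOpen_lt continuous_const (by fun_prop)
  refine ⟨fun z hz => ?_, fun z hz => ?_⟩
  · have hc : IsClosed {z | F z = z} := isClosed_eq hF.smooth.continuous continuous_id
    exact (closure_minimal (fun w hw => h w hw) hc) (hcl z hz)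
  · have hc : IsClosed {z | fderiv ℝ F z = ContinuousLinearMap.id ℝ (E n)} :=
      isClosed_eq hF.cont continuous_const
    refine (closure_minimal (fun w hw => ?_) hc) (hcl z hz)
    refine fderiv_of_eventually ?_
    filter_upwards [hop.mem_nhds hw] with y hy
    exact h y hy

theorem Good.inv {F : Equiv.Perm (E n)} (hF : CD F) {U : Set (E n)} (h : Good U F) :
    Good U F⁻¹ := by
  have h1 : ∀ z, z ∉ U → F⁻¹ z = z := fun z hz => by
    rw [Equiv.Perm.inv_eq_iff_eq, h.1 z hz]
  refine ⟨h1, fun z hz => ?_⟩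
  ext v : 1
  have h2 := fderiv_inv hF z v
  rw [h.1 z hz, h.2 z hz] at h2
  exact h2

theorem map_mem {F : Equiv.Perm (E n)} {U : Set (E n)} (h : ∀ z, z ∉ U → F z = z) {x : E n}
    (hx : x ∈ U) : F x ∈ U := by
  by_contra hn
  have h2 := F.injective (h _ hn)
  rw [h2] at hn
  exact hn hx

theorem mul_fd_right {F G : Equiv.Perm (E n)} (cF : CD F) (cG : CD G) {U V : Set (E n)}
    (hF : Good U F) (hG : Good V G) (hd : Disjoint U V) {z : E n} (hz : z ∉ U) :
    fderiv ℝ (F * G : Equiv.Perm (E n)) z = fderiv ℝ G z := by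
  have h1 : G z ∉ U := by
    by_cases hv : z ∈ V
    · exact fun h => Set.disjoint_left.1 hd h (map_mem hG.1 hv)
    · rw [hG.1 z hv]; exact hz
  rw [fderiv_mul cF cG, hF.2 _ h1]
  exact ContinuousLinearMap.id_comp _

theorem mul_fd_left {F G : Equiv.Perm (E n)} (cF : CD F) (cG : CD G) {V : Set (E n)}
    (hG : Good V G) {z : E n} (hz : z ∉ V) :
    fderiv ℝ (F * G : Equiv.Perm (E n)) z = fderiv ℝ F z := by
  rw [fderiv_mul cF cG, hG.2 _ hz, hG.1 _ hz]
  exact ContinuousLinearMap.comp_id _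

theorem mul_good {F G : Equiv.Perm (E n)} (cF : CD F) (cG : CD G) {U V : Set (E n)}
    (hF : Good U F) (hG : Good V G) : Good (U ∪ V) (F * G) := by
  refine ⟨fun z hz => ?_, fun z hz => ?_⟩
  · rw [Set.mem_union, not_or] at hz
    rw [Equiv.Perm.mul_apply, hG.1 z hz.2, hF.1 z hz.1]
  · rw [Set.mem_union, not_or] at hz
    rw [mul_fd_left cF cG hG hz.2, hF.2 z hz.1]

/-- a segment which meets two disjoint open sets is not covered by them -/
theorem exists_between {U V : Set (E n)} (hU : IsOpen U) (hV : IsOpen V) (hd : Disjoint U V)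
    {x y : E n} (hx : x ∈ U) (hy : y ∈ V) :
    ∃ z, z ∉ U ∧ z ∉ V ∧ ‖x - z‖ + ‖z - y‖ = ‖x - y‖ := by
  have hp : IsPreconnected (segment ℝ x y) := (convex_segment x y).isPreconnected
  by_contra hcon
  push Not at hcon
  have hcov : segment ℝ x y ⊆ U ∪ V := by
    intro z hz
    by_contra h
    rw [Set.mem_union, not_or] at h
    refine hcon z h.1 h.2 ?_
    have := dist_add_dist_of_mem_segment hz
    rwa [dist_eq_norm, dist_eq_norm, dist_eq_norm] at this
  obtain ⟨w, hw, hwU, hwV⟩ := hp U V hU hV hcov ⟨x, left_mem_segment ℝ x y, hx⟩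
    ⟨y, right_mem_segment ℝ x y, hy⟩
  exact Set.disjoint_left.1 hd hwU hwV

theorem mul_DL {F G : Equiv.Perm (E n)} (cF : CD F) (cG : CD G) {U V : Set (E n)} (hU : IsOpen U)
    (hV : IsOpen V) (hF : Good U F) (hG : Good V G) (hd : Disjoint U V) {L : ℝ} (h1 : DL L F)
    (h2 : DL L G) : DL L (F * G) := by
  have key : ∀ x y, x ∈ U → y ∈ V →
      ‖fderiv ℝ (F * G : Equiv.Perm (E n)) x - fderiv ℝ (F * G : Equiv.Perm (E n)) y‖
        ≤ L * ‖x - y‖ := by
    intro x y hx hy
    obtain ⟨z, hzU, hzV, hz⟩ := exists_between hU hV hd hx hy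
    have hxV : x ∉ V := fun h => Set.disjoint_left.1 hd hx h
    have hyU : y ∉ U := fun h => Set.disjoint_left.1 hd h hy
    have e1 := h1 x z
    have e2 := h2 z y
    rw [hF.2 z hzU] at e1
    rw [hG.2 z hzV] at e2
    rw [mul_fd_left cF cG hG hxV, mul_fd_right cF cG hF hG hd hyU, ← hz, mul_add]
    calc ‖fderiv ℝ F x - fderiv ℝ G y‖
        = ‖(fderiv ℝ F x - ContinuousLinearMap.id ℝ (E n))
          + (ContinuousLinearMap.id ℝ (E n) - fderiv ℝ G y)‖ := by
          congr 1; abel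
      _ ≤ _ := norm_add_le _ _
      _ ≤ _ := add_le_add e1 e2
  intro x y
  by_cases hxU : x ∈ U
  · by_cases hyV : y ∈ V
    · exact key x y hxU hyV
    · rw [mul_fd_left cF cG hG hyV,
        mul_fd_left cF cG hG fun h => Set.disjoint_left.1 hd hxU h]
      exact h1 x y
  · by_cases hyU : y ∈ U
    · by_cases hxV : x ∈ V
      · have := key y x hyU hxV
        rwa [norm_sub_rev, norm_sub_rev y x] at this
      · rw [mul_fd_left cF cG hG hxV,
          mul_fd_left cF cG hG fun h => Set.disjoint_left.1 hd hyU h]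
        exact h1 x y
    · rw [mul_fd_right cF cG hF hG hd hxU, mul_fd_right cF cG hF hG hd hyU]
      exact h2 x y

theorem cj_DL {F : Equiv.Perm (E n)} (cF : CD F) {L : ℝ} (h : DL L F) (a : E n) {l : ℝ}
    (hl : 0 < l) : DL (L / l) (cj F a l hl.ne') := by
  intro x y
  rw [cj_fderiv cF, cj_fderiv cF]
  refine (h _ _).trans (le_of_eq ?_)
  rw [← smul_sub, norm_smul, norm_inv, Real.norm_eq_abs, abs_of_pos hl]
  have : x - a - (y - a) = x - y := by abel
  rw [this]
  ring

theorem exists_DL {F : Equiv.Perm (E n)} (hF : CD F) : ∃ L : ℝ, 0 ≤ L ∧ DL L F := by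
  obtain ⟨r, h⟩ := hF.supp
  set D : E n → (E n →L[ℝ] E n) := fun x => fderiv ℝ F x
    - ContinuousLinearMap.id ℝ (E n) with hD
  have hs : HasCompactSupport D := by
    refine HasCompactSupport.intro (isCompact_closedBall (0 : E n) r) fun x hx => ?_
    have h1 : fderiv ℝ F x = ContinuousLinearMap.id ℝ (E n) := by
      refine fderiv_of_eventually ?_
      filter_upwards [Metric.isClosed_closedBall.isOpen_compl.mem_nhds hx] with y hy
      refine h y ?_
      rw [mem_compl_iff, mem_closedBall_zero_iff, not_le] at hy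
      exact hy.le
    rw [hD]
    change fderiv ℝ F x - _ = 0
    rw [h1, sub_self]
  have hc : ContDiff ℝ 1 D := by
    refine ContDiff.sub ?_ contDiff_const
    exact hF.smooth.fderiv_right (by norm_cast)
  obtain ⟨C, hC⟩ := hc.lipschitzWith_of_hasCompactSupport hs one_ne_zero
  refine ⟨C, C.2, fun x y => ?_⟩
  have := hC.dist_le_mul x y
  rw [dist_eq_norm, dist_eq_norm] at this
  have e : D x - D y = fderiv ℝ F x - fderiv ℝ F y := by
    rw [hD]
    change fderiv ℝ F x - _ - (fderiv ℝ F y - _) = _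
    abel
  rwa [e] at this

theorem near_id {F : Equiv.Perm (E n)} (cF : CD F) {L : ℝ} (hL : 0 ≤ L)
    (h : Good (Cube 0 1) F) (hD : DL L F) (z : E n) :
    ‖fderiv ℝ F z - ContinuousLinearMap.id ℝ (E n)‖ ≤ L := by
  rcases Nat.eq_zero_or_pos n with hn | hn
  · subst hn
    have : fderiv ℝ F z - ContinuousLinearMap.id ℝ (E 0) = 0 :=
      ContinuousLinearMap.ext fun v => Subsingleton.elim _ _
    rw [this, norm_zero]
    exact hL
  by_cases hz : z ∈ Cube (0 : E n) 1
  · let i : Fin n := ⟨0, hn⟩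
    have hzi : |z i| < 1 := by
      have := hz i
      simpa using this
    obtain ⟨s, hs, hs1⟩ : ∃ s : ℝ, |s| = 1 ∧ |z i - s| ≤ 1 := by
      rcases le_total 0 (z i) with h0 | h0
      · refine ⟨1, abs_one, ?_⟩
        rw [abs_le]
        rw [abs_lt] at hzi
        constructor <;> linarith
      · refine ⟨-1, by rw [abs_neg, abs_one], ?_⟩
        rw [abs_le]
        rw [abs_lt] at hzi
        constructor <;> linarith
    let w : E n := z + EuclideanSpace.single i (s - z i)
    have hwi : w i = s := by simp [w]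
    have hw : w ∉ Cube (0 : E n) 1 := by
      intro hw
      have := hw i
      rw [hwi] at this
      simp [hs] at this
    have hzw : ‖z - w‖ ≤ 1 := by
      have e : z - w = - EuclideanSpace.single i (s - z i) := by simp [w]
      rw [e, norm_neg, EuclideanSpace.norm_single, Real.norm_eq_abs, abs_sub_comm]
      exact hs1
    have h1 := hD z w
    rw [h.2 w hw] at h1
    refine h1.trans ?_
    nlinarith [norm_nonneg (z - w)]
  · rw [h.2 z hz, sub_self, norm_zero]
    exact hL

theorem norm_fderiv_le {F : Equiv.Perm (E n)} (cF : CD F) {L : ℝ} (hL : 0 ≤ L)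
    (h : Good (Cube 0 1) F) (hD : DL L F) (z : E n) : ‖fderiv ℝ F z‖ ≤ L + 1 := by
  have h3 := near_id cF hL h hD z
  have h4 : ‖ContinuousLinearMap.id ℝ (E n)‖ ≤ 1 := ContinuousLinearMap.norm_id_le
  calc ‖fderiv ℝ F z‖ = ‖(fderiv ℝ F z - ContinuousLinearMap.id ℝ (E n))
        + ContinuousLinearMap.id ℝ (E n)‖ := by congr 1; abel
    _ ≤ L + 1 := (norm_add_le _ _).trans (add_le_add h3 h4)

/-- the gap -/
theorem iso_of_small {F : Equiv.Perm (E n)} (cF : CD F) {L : ℝ} (hL : 0 ≤ L) (hL1 : L < 1)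
    (h : Good (Cube 0 1) F) (hD : DL L F) : Iso 1 F := by
  refine iso_of_close cF CD.one fun x v hv => ?_
  have h1 := near_id cF hL h hD x
  have h2 := (fderiv ℝ F x - ContinuousLinearMap.id ℝ (E n)).le_opNorm v
  rw [fderiv_one]
  have h4 : 0 < ‖v‖ := norm_pos_iff.2 hv
  have h5 : ‖fderiv ℝ F x v - v‖ ≤ L * ‖v‖ := by
    refine h2.trans ?_
    gcongr
  change ‖fderiv ℝ F x v - v‖ < ‖v‖
  nlinarith

/-- supported in the unit cube, derivatives of `F` and of the inverse `L`-Lipschitz -/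
def Sm (L : ℝ) (F : Equiv.Perm (E n)) : Prop :=
  CD F ∧ Good (Cube 0 1) F ∧ DL L F ∧ DL L F⁻¹

/-- finitely many classes -/
theorem finite_classes (n : ℕ) {L : ℝ} (hL : 0 ≤ L) : ∃ S : Finset (Equiv.Perm (E n)),
    ∀ F : Equiv.Perm (E n), Sm L F → ∃ G ∈ S, CD G ∧ Iso F G := by
  classical
  set I := ContinuousLinearMap.id ℝ (E n) with hI
  obtain ⟨ε, hε, hε2⟩ : ∃ ε : ℝ, 0 < ε ∧ (2 * (L + 1) * ε) * (L + 1) < 1 := by
    refine ⟨1 / (4 * (L + 1) ^ 2), by positivity, ?_⟩
    have : 2 * (L + 1) * (1 / (4 * (L + 1) ^ 2)) * (L + 1) = 1 / 2 := by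
      field_simp
      norm_num
    rw [this]
    norm_num
  obtain ⟨X, -, hX, hXc⟩ := (isCompact_closedBall (0 : E n) (Real.sqrt n)).finite_cover_balls hε
  obtain ⟨Y, -, hY, hYc⟩ := (isCompact_closedBall I L).finite_cover_balls hε
  have : Finite X := hX
  have : Finite Y := hY
  have : Fintype (X → Y) := Fintype.ofFinite _
  let R : Equiv.Perm (E n) → (X → Y) → Prop := fun F c => ∀ x : X, ‖fderiv ℝ F x - c x‖ < ε
  let s : (X → Y) → Equiv.Perm (E n) := fun c => if h : ∃ F, Sm L F ∧ R F c then h.choose else 1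
  refine ⟨Finset.univ.image s, fun F hF => ?_⟩
  obtain ⟨cF, gF, dF, dF'⟩ := hF
  have hc : ∃ c, R F c := by
    have : ∀ x : X, ∃ y : Y, ‖fderiv ℝ F x - y‖ < ε := by
      intro x
      have h3 : fderiv ℝ F x ∈ Metric.closedBall I L := by
        rw [mem_closedBall_iff_norm]
        exact near_id cF hL gF dF _
      have h4 := hYc h3
      simp only [Set.mem_iUnion, exists_prop] at h4
      obtain ⟨y, hy, h5⟩ := h4
      exact ⟨⟨y, hy⟩, by rwa [mem_ball_iff_norm] at h5⟩
    choose c hc using this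
    exact ⟨c, hc⟩
  obtain ⟨c, hc⟩ := hc
  have hex : ∃ F, Sm L F ∧ R F c := ⟨F, ⟨cF, gF, dF, dF'⟩, hc⟩
  have hs : s c = hex.choose := dif_pos hex
  obtain ⟨⟨cG, gG, dG, dG'⟩, g3⟩ := hex.choose_spec
  refine ⟨s c, Finset.mem_image_of_mem s (Finset.mem_univ c), ?_⟩
  rw [hs]
  generalize hex.choose = G at cG gG dG dG' g3
  refine ⟨cG, ?_⟩
  have hclose : ∀ z, ‖fderiv ℝ F z - fderiv ℝ G z‖ ≤ 2 * (L + 1) * ε := by
    intro z
    by_cases hz : z ∈ Cube (0 : E n) 1
    · have hzb : z ∈ closedBall (0 : E n) (Real.sqrt n) := by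
        rw [mem_closedBall_zero_iff, EuclideanSpace.norm_eq]
        apply Real.sqrt_le_sqrt
        calc ∑ i, ‖z i‖ ^ 2 ≤ ∑ _i : Fin n, (1 : ℝ) := by
              refine Finset.sum_le_sum fun i _ => ?_
              have h1 := hz i
              have h2 : |z i| < 1 := by simpa using h1
              rw [Real.norm_eq_abs]
              nlinarith [abs_nonneg (z i)]
          _ = n := by simp
      have h4 := hXc hzb
      simp only [Set.mem_iUnion, exists_prop] at h4
      obtain ⟨x, hx, h5⟩ := h4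
      rw [mem_ball_iff_norm] at h5
      have e1 := dF z x
      have e2 := dG x z
      have e3 := hc ⟨x, hx⟩
      have e4 := g3 ⟨x, hx⟩
      rw [norm_sub_rev] at e4
      have e5 : L * ‖z - x‖ ≤ L * ε := by gcongr
      have e6 : L * ‖x - z‖ ≤ L * ε := by rw [norm_sub_rev]; gcongr
      calc ‖fderiv ℝ F z - fderiv ℝ G z‖
          = ‖((fderiv ℝ F z - fderiv ℝ F x)
            + (fderiv ℝ F x - (c ⟨x, hx⟩ : E n →L[ℝ] E n)))
            + (((c ⟨x, hx⟩ : E n →L[ℝ] E n) - fderiv ℝ G x)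
            + (fderiv ℝ G x - fderiv ℝ G z))‖ := by congr 1; abel
        _ ≤ (L * ε + ε) + (ε + L * ε) := by
          refine (norm_add_le _ _).trans (add_le_add ?_ ?_)
          · exact (norm_add_le _ _).trans (add_le_add (e1.trans e5) e3.le)
          · exact (norm_add_le _ _).trans (add_le_add e4.le (e2.trans e6))
        _ = 2 * (L + 1) * ε := by ring
    · rw [gF.2 z hz, gG.2 z hz, sub_self, norm_zero]
      positivity
  refine (iso_of_close cF cG fun x v hv => ?_).symm
  have h6 := hclose x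
  have hp : 0 < ‖v‖ := norm_pos_iff.2 hv
  have h4 := (fderiv ℝ F x - fderiv ℝ G x).le_opNorm v
  have h3 : ‖v‖ ≤ (L + 1) * ‖fderiv ℝ G x v‖ := by
    have e1 := fderiv_inv cG x v
    have e2 := norm_fderiv_le cG.inv hL (gG.inv cG) dG' (G x)
    calc ‖v‖ = ‖fderiv ℝ (G⁻¹ : Equiv.Perm (E n)) (G x) (fderiv ℝ G x v)‖ := by rw [e1]
      _ ≤ ‖fderiv ℝ (G⁻¹ : Equiv.Perm (E n)) (G x)‖ * ‖fderiv ℝ G x v‖ :=
        ContinuousLinearMap.le_opNorm _ _
      _ ≤ _ := by gcongr
  have ht0 : 0 < ‖fderiv ℝ G x v‖ := by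
    by_contra hcon
    have : ‖fderiv ℝ G x v‖ = 0 := le_antisymm (not_lt.1 hcon) (norm_nonneg _)
    rw [this, mul_zero] at h3
    linarith
  change ‖(fderiv ℝ F x - fderiv ℝ G x) v‖ < _
  have h7 : ‖(fderiv ℝ F x - fderiv ℝ G x) v‖ ≤ 2 * (L + 1) * ε * ((L + 1) * ‖fderiv ℝ G x v‖) := by
    refine h4.trans ?_
    gcongr
  refine lt_of_le_of_lt h7 ?_
  calc 2 * (L + 1) * ε * ((L + 1) * ‖fderiv ℝ G x v‖)
      = (2 * (L + 1) * ε * (L + 1)) * ‖fderiv ℝ G x v‖ := by ring
    _ < 1 * ‖fderiv ℝ G x v‖ := by gcongr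
    _ = _ := one_mul _

end Pool.Agent.U731.BA
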