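import Pool.Agent.U731.BA.A

set_option autoImplicit false
set_option linter.unusedSectionVars false

/-! Smooth isotopy classes of the maps of a manifold which are given in one coordinate `ℝⁿ`. -/

open Set Filter Topology Metric Function
open scoped Manifold ContDiff

namespace Pool.Agent.U731.BA

open Pool.Agent.Y522 Pool.Agent.U211.ISO Pool.Agent.U211.BL

variable {n : ℕ} {X : Type} [TopologicalSpace X] [ChartedSpace (E n) X]

/-- smoothly isotopic -/
def SI (n : ℕ) {X : Type} [TopologicalSpace X] [ChartedSpace (E n) X] (φ ψ : X → X) : Prop :=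
  ∃ K : ℝ × X → X, ContMDiff ((𝓘(ℝ, ℝ)).prod (𝓡 n)) (𝓡 n) ∞ K ∧
    (∀ t, IsDiffeo n (fun x => K (t, x))) ∧ (∀ x, K (0, x) = φ x) ∧ ∀ x, K (1, x) = ψ x

theorem IsDiffeo.congr {φ ψ : X → X} (h : IsDiffeo n φ) (e : ∀ x, φ x = ψ x) : IsDiffeo n ψ := by
  obtain ⟨Φ, hΦ⟩ := h
  exact ⟨Φ, fun x => (hΦ x).trans (e x)⟩

theorem SI.left {φ ψ : X → X} (h : SI n φ ψ) : IsDiffeo n φ := by
  obtain ⟨K, -, h2, h3, -⟩ := h
  exact IsDiffeo.congr (h2 0) h3

theorem SI.right {φ ψ : X → X} (h : SI n φ ψ) : IsDiffeo n ψ := by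
  obtain ⟨K, -, h2, -, h4⟩ := h
  exact IsDiffeo.congr (h2 1) h4

theorem si_refl {φ : X → X} (h : IsDiffeo n φ) : SI n φ φ := by
  obtain ⟨Φ, hΦ⟩ := h
  refine ⟨fun q => Φ q.2, Φ.contMDiff.comp contMDiff_snd, fun t => ⟨Φ, fun x => rfl⟩, hΦ, hΦ⟩

theorem SI.symm {φ ψ : X → X} (h : SI n φ ψ) : SI n ψ φ := by
  obtain ⟨K, h1, h2, h3, h4⟩ := h
  refine ⟨fun q => K (1 - q.1, q.2), ?_, fun t => h2 (1 - t), fun x => ?_, fun x => ?_⟩
  · have s : ContMDiff 𝓘(ℝ, ℝ) 𝓘(ℝ, ℝ) ∞ (fun t : ℝ => 1 - t) :=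
      (contDiff_const.sub contDiff_id).contMDiff
    exact h1.comp ((s.comp contMDiff_fst).prodMk contMDiff_snd)
  · simpa using h4 x
  · simpa using h3 x

theorem SI.comp {φ ψ φ' ψ' : X → X} (h : SI n φ φ') (h' : SI n ψ ψ') :
    SI n (fun x => φ (ψ x)) (fun x => φ' (ψ' x)) := by
  obtain ⟨K, k1, k2, k3, k4⟩ := h
  obtain ⟨L, l1, l2, l3, l4⟩ := h'
  refine ⟨fun q => K (q.1, L q), k1.comp (contMDiff_fst.prodMk l1), fun t => ?_, fun x => ?_,
    fun x => ?_⟩
  · obtain ⟨Φ, hΦ⟩ := k2 t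
    obtain ⟨Ψ, hΨ⟩ := l2 t
    refine ⟨Ψ.trans Φ, fun x => ?_⟩
    show Φ (Ψ x) = _
    rw [hΦ, hΨ]
  · show K (0, L (0, x)) = φ (ψ x)
    rw [l3, k3]
  · show K (1, L (1, x)) = φ' (ψ' x)
    rw [l4, k4]

theorem SI.congr {φ ψ φ' ψ' : X → X} (h : SI n φ ψ) (e : ∀ x, φ x = φ' x) (e' : ∀ x, ψ x = ψ' x) :
    SI n φ' ψ' := by
  obtain ⟨K, h1, h2, h3, h4⟩ := h
  exact ⟨K, h1, h2, fun x => (h3 x).trans (e x), fun x => (h4 x).trans (e' x)⟩

theorem SI.trans {φ ψ χ : X → X} (h : SI n φ ψ) (h' : SI n ψ χ) : SI n φ χ := by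
  obtain ⟨Ψ, hΨ⟩ := h.right
  have hi : IsDiffeo n (fun x => Ψ.symm x) := ⟨Ψ.symm, fun _ => rfl⟩
  refine ((h'.comp (si_refl hi)).comp h).congr (fun x => ?_) (fun x => ?_)
  · show ψ (Ψ.symm (φ x)) = φ x
    rw [← hΨ]
    exact Ψ.apply_symm_apply _
  · show χ (Ψ.symm (ψ x)) = χ x
    rw [← hΨ]
    congr 1
    exact Ψ.symm_apply_apply _

/-- inverses -/
theorem SI.inv {φ ψ φ' ψ' : X → X} (h : SI n φ ψ) (e : ∀ x, φ (φ' x) = x) (e' : ∀ x, ψ' (ψ x) = x) :
    SI n φ' ψ' := by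
  obtain ⟨Φ, hΦ⟩ := h.left
  obtain ⟨Ψ, hΨ⟩ := h.right
  have g1 : ∀ x, Φ.symm x = φ' x := by
    intro x
    have : Φ (φ' x) = x := by rw [hΦ, e]
    rw [← this]
    rw [Φ.symm_apply_apply, this]
  have g2 : ∀ x, Ψ.symm x = ψ' x := by
    intro x
    obtain ⟨y, hy⟩ : ∃ y, Ψ y = x := ⟨Ψ.symm x, Ψ.apply_symm_apply x⟩
    rw [← hy, Ψ.symm_apply_apply, hΨ, e']
  have i1 : IsDiffeo n φ' := ⟨Φ.symm, g1⟩
  have i2 : IsDiffeo n ψ' := ⟨Ψ.symm, g2⟩
  refine (((si_refl i1).comp h.symm).comp (si_refl i2)).congr (fun x => ?_) (fun x => ?_)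
  · show φ' (ψ (ψ' x)) = φ' x
    rw [← g2, ← hΨ, Ψ.apply_symm_apply]
  · show φ' (φ (ψ' x)) = ψ' x
    rw [← g1, ← hΦ, Φ.symm_apply_apply]

variable [T2Space X]

/-- transfer of isotopies -/
theorem si_ext {h : E n → X} (hi : Injective h) (hl : ∀ z, LD n h z) {F G : Equiv.Perm (E n)}
    (hFG : Iso F G) : SI n (ext h F) (ext h G) := by
  obtain ⟨k, R, hk, h0, h1, hR, hk2⟩ := hFG
  have hc : Continuous h := continuous_iff_continuousAt.2 fun z => (hl z).continuousAt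
  have hcl : IsClosed (h '' closedBall 0 R) := ((isCompact_closedBall _ _).image hc).isClosed
  have hopen : IsOpen (range h) := by
    rw [← image_univ]
    exact isOpen_image_of_LD isOpen_univ fun x _ => hl x
  refine ⟨fun q => ext h (fun x => k (q.1, x)) q.2, ?_, fun t => ?_, fun x => ?_, fun x => ?_⟩
  · rintro ⟨t, x⟩
    by_cases hx : x ∈ range h
    · obtain ⟨z, rfl⟩ := hx
      have e1 : (fun q : ℝ × X => ext h (fun x => k (q.1, x)) q.2) =ᶠ[𝓝 (t, h z)]
          fun q => h (k (q.1, invFun h q.2)) := by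
        have h2 : ∀ᶠ q : ℝ × X in 𝓝 (t, h z), q.2 ∈ range h :=
          continuous_snd.continuousAt.eventually (hopen.mem_nhds (mem_range_self z))
        filter_upwards [h2] with q hq
        unfold Pool.Agent.U211.ISO.ext
        rw [if_pos hq]
      refine ContMDiffAt.congr_of_eventuallyEq ?_ e1
      have s1 : ContMDiffAt ((𝓘(ℝ, ℝ)).prod (𝓡 n)) (𝓡 n) ∞ (fun q : ℝ × X => invFun h q.2)
          (t, h z) :=
        ContMDiffAt.comp (t, h z) (invFun_ld hi hl z).contMDiffAt contMDiffAt_snd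
      have s2 : ContMDiffAt ((𝓘(ℝ, ℝ)).prod (𝓡 n)) ((𝓘(ℝ, ℝ)).prod (𝓡 n)) ∞
          (fun q : ℝ × X => (q.1, invFun h q.2)) (t, h z) := contMDiffAt_fst.prodMk s1
      have s3 : ContMDiff ((𝓘(ℝ, ℝ)).prod (𝓡 n)) (𝓡 n) ∞ k := by
        rw [← modelWithCornersSelf_prod, chartedSpaceSelf_prod]
        exact hk.contMDiff
      have s4 : ContMDiffAt ((𝓘(ℝ, ℝ)).prod (𝓡 n)) (𝓡 n) ∞
          (fun q : ℝ × X => k (q.1, invFun h q.2)) (t, h z) :=
        ContMDiffAt.comp (t, h z) s3.contMDiffAt s2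
      exact ContMDiffAt.comp (t, h z) (hl _).contMDiffAt s4
    · have e1 : (fun q : ℝ × X => ext h (fun x => k (q.1, x)) q.2) =ᶠ[𝓝 (t, x)] fun q => q.2 := by
        have h2 : x ∈ (h '' closedBall 0 R)ᶜ := fun h3 => hx (image_subset_range _ _ h3)
        have h4 : ∀ᶠ q : ℝ × X in 𝓝 (t, x), q.2 ∈ (h '' closedBall 0 R)ᶜ :=
          continuous_snd.continuousAt.eventually (hcl.isOpen_compl.mem_nhds h2)
        filter_upwards [h4] with q hq
        exact ext_off' hi (hR q.1) hq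
      exact ContMDiffAt.congr_of_eventuallyEq contMDiffAt_snd e1
  · obtain ⟨hb, hld⟩ := hk2 t
    have hloc : IsLocalDiffeomorph (𝓡 n) (𝓡 n) ∞ (ext h (fun x => k (t, x))) := by
      intro x
      by_cases hx : x ∈ range h
      · obtain ⟨z, rfl⟩ := hx
        have e1 : ext h (fun x => k (t, x)) =ᶠ[𝓝 (h z)]
            fun x => h ((fun y => k (t, y)) (invFun h x)) := by
          filter_upwards [hopen.mem_nhds (mem_range_self z)] with x hx
          unfold Pool.Agent.U211.ISO.ext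
          rw [if_pos hx]
        refine LD.congr ?_ e1
        refine LD.comp_fun (g := h) (f := fun x => (fun y => k (t, y)) (invFun h x)) (hl _) ?_
        exact LD.comp_fun (g := fun y => k (t, y)) (f := invFun h) (hld _) (invFun_ld hi hl z)
      · have e1 : ext h (fun x => k (t, x)) =ᶠ[𝓝 x] fun x => x := by
          have h2 : x ∈ (h '' closedBall 0 R)ᶜ := fun h3 => hx (image_subset_range _ _ h3)
          filter_upwards [hcl.isOpen_compl.mem_nhds h2] with y hy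
          exact ext_off' hi (hR t) hy
        exact LD.congr ((Diffeomorph.refl (𝓡 n) X ∞).isLocalDiffeomorph x) e1
    have hbij : Bijective (ext h (fun x => k (t, x))) := by
      constructor
      · intro x y hxy
        by_cases hx : x ∈ range h <;> by_cases hy : y ∈ range h
        · obtain ⟨z, rfl⟩ := hx
          obtain ⟨w, rfl⟩ := hy
          rw [ext_of hi, ext_of hi] at hxy
          rw [hb.1 (hi hxy)]
        · obtain ⟨z, rfl⟩ := hx
          rw [ext_of hi, ext_off _ hy] at hxy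
          exact absurd ⟨_, hxy⟩ hy
        · obtain ⟨w, rfl⟩ := hy
          rw [ext_of hi, ext_off _ hx] at hxy
          exact absurd ⟨_, hxy.symm⟩ hx
        · rwa [ext_off _ hx, ext_off _ hy] at hxy
      · intro y
        by_cases hy : y ∈ range h
        · obtain ⟨w, rfl⟩ := hy
          obtain ⟨z, hz⟩ := hb.2 w
          refine ⟨h z, ?_⟩
          rw [ext_of hi]
          exact congrArg h hz
        · exact ⟨y, ext_off _ hy⟩
    exact ⟨hloc.diffeomorphOfBijective hbij, fun x => rfl⟩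
  · show ext h (fun x => k (0, x)) x = ext h F x
    have : (fun x => k (0, x)) = F := funext h0
    rw [this]
  · show ext h (fun x => k (1, x)) x = ext h G x
    have : (fun x => k (1, x)) = G := funext h1
    rw [this]

omit [TopologicalSpace X] [ChartedSpace (E n) X] [T2Space X] in
theorem ext_mul {h : E n → X} (hi : Injective h) (F G : Equiv.Perm (E n)) (x : X) :
    ext h (F * G : Equiv.Perm (E n)) x = ext h F (ext h G x) := by
  by_cases hx : x ∈ range h
  · obtain ⟨z, rfl⟩ := hx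
    rw [ext_of hi, ext_of hi, ext_of hi]
    rfl
  · rw [ext_off _ hx, ext_off _ hx, ext_off _ hx]

omit [TopologicalSpace X] [ChartedSpace (E n) X] [T2Space X] in
theorem ext_one {h : E n → X} (hi : Injective h) (x : X) :
    ext h (1 : Equiv.Perm (E n)) x = x := by
  by_cases hx : x ∈ range h
  · obtain ⟨z, rfl⟩ := hx
    rw [ext_of hi]
    rfl
  · rw [ext_off _ hx]

omit [TopologicalSpace X] [ChartedSpace (E n) X] [T2Space X] in
theorem ext_inv {h : E n → X} (hi : Injective h) (F : Equiv.Perm (E n)) (x : X) :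
    ext h (F⁻¹ : Equiv.Perm (E n)) (ext h F x) = x := by
  rw [← ext_mul hi, inv_mul_cancel, ext_one hi]

end Pool.Agent.U731.BA
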